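import Mathlib
import Pool.Agent.H476R3.DiagLift2
import Pool.Agent.H476R3.ThF
import Pool.Agent.H476R3.ThX

set_option autoImplicit false

/-!
Thompson's group `F` has a finitely generated subgroup which is not a diagram group.
-/

namespace Pool.Agent.Results.MP_24b811_al.NotDiagramGroup

open Pool.Agent.H476R3.Diag Pool.Agent.H476R3.ThF

open scoped commutatorElement

universe u

/-- `t` as an element of `F` -/
noncomputable def t' : ThompsonF := ⟨t, t_isPL⟩

/-- `a` as an element of `F` -/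
noncomputable def a' : ThompsonF := ⟨a, a_isPL⟩

/-- the subgroup generated by `t`, `a ^ 2` and `[t, a]` -/
noncomputable def H : Subgroup ThompsonF := Subgroup.closure {t', a' ^ 2, ⁅t', a'⁆}

theorem tot_one : tot (Finsupp.single 1 1 : ℤ →₀ ZMod 2) = 1 := tot_single _ _

theorem comm_T : T (t * a * t⁻¹ * a⁻¹) 0 (Finsupp.single 1 1 + sh 0 (-sh (-0) (Finsupp.single 0 1))) := by
  have h := T_b.mul T_a.inv
  have e : (0 : ℤ) + -0 = 0 := by simp
  rw [e] at h
  exact h

theorem H_le : H ≤ S0.comap ThompsonF.subtype := by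
  unfold H
  rw [Subgroup.closure_le]
  intro x hx
  rcases hx with rfl | rfl | rfl
  · exact ⟨1, 0, T_t, by simp⟩
  · refine ⟨0 + 0, Finsupp.single 0 1 + sh 0 (Finsupp.single 0 1), ?_, ?_⟩
    · have : ThompsonF.subtype (a' ^ 2) = a * a := by
        rw [pow_two]; rfl
      rw [this]
      exact T_a.mul T_a
    · rw [map_add, tot_sh, zmod2_cases]
  · refine ⟨0, _, comm_T, ?_⟩
    rw [map_add, tot_sh, map_neg, tot_sh, tot_single, tot_single]
    decide

/-- the homomorphism onto `ℤ / 2` -/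
noncomputable def chi : H →* Multiplicative (ZMod 2) :=
  chi0.comp ((ThompsonF.subtype.comp H.subtype).codRestrict S0 (fun x => H_le x.2))

/-- the commutator as an element of `H` -/
noncomputable def c : H := ⟨⁅t', a'⁆, Subgroup.subset_closure (by simp)⟩

/-- `t` as an element of `H` -/
noncomputable def tH : H := ⟨t', Subgroup.subset_closure (by simp)⟩

/-- `a ^ 2` as an element of `H` -/
noncomputable def aH : H := ⟨a' ^ 2, Subgroup.subset_closure (by simp)⟩

theorem chi_c : chi c = Multiplicative.ofAdd 1 := by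
  have h := chi0_eq (h := ⟨t * a * t⁻¹ * a⁻¹, ⟨0, _, comm_T, by
    rw [map_add, tot_sh, map_neg, tot_sh, tot_single, tot_single]
    decide⟩⟩) comm_T
  have e : od (Finsupp.single 1 1 + sh 0 (-sh (-0) (Finsupp.single 0 1))) = 1 := by
    rw [map_add, od_sh, if_neg (by decide), map_neg, od_sh, if_neg (by decide), od_single,
      od_single, if_pos (by decide), if_neg (by decide)]
    decide
  rw [e] at h
  exact h

theorem c_sq : c * c = ⁅tH, aH⁆ := by
  apply Subtype.ext
  apply Subtype.ext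
  change (t * a * t⁻¹ * a⁻¹) * (t * a * t⁻¹ * a⁻¹) = t * a ^ 2 * t⁻¹ * (a ^ 2)⁻¹
  have hc : (t * a * t⁻¹) * a = a * (t * a * t⁻¹) := comm
  have hc' : a⁻¹ * (t * a * t⁻¹) = (t * a * t⁻¹) * a⁻¹ := by
    have : a⁻¹ * ((t * a * t⁻¹) * a) * a⁻¹ = a⁻¹ * (a * (t * a * t⁻¹)) * a⁻¹ := by rw [hc]
    calc a⁻¹ * (t * a * t⁻¹) = a⁻¹ * ((t * a * t⁻¹) * a) * a⁻¹ := by group
      _ = a⁻¹ * (a * (t * a * t⁻¹)) * a⁻¹ := this
      _ = (t * a * t⁻¹) * a⁻¹ := by group
  calc (t * a * t⁻¹ * a⁻¹) * (t * a * t⁻¹ * a⁻¹) =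
      (t * a * t⁻¹) * (a⁻¹ * (t * a * t⁻¹)) * a⁻¹ := by group
    _ = (t * a * t⁻¹) * ((t * a * t⁻¹) * a⁻¹) * a⁻¹ := by rw [hc']
    _ = t * a ^ 2 * t⁻¹ * (a ^ 2)⁻¹ := by rw [pow_two]; group

/-- **Not every subgroup of Thompson's group `F` is a diagram group**: there is a finitely generated
subgroup `H` of `F` which is not isomorphic to `D(P, w)` for any semigroup presentation `P`
(finite or infinite) and any base word `w`. -/
theorem result : ∃ H : Subgroup ThompsonF, H.FG ∧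
    ∀ (α : Type u) (R : Set (List α × List α)) (w : List α),
      (∀ r ∈ R, r.1 ≠ [] ∧ r.2 ≠ []) → w ≠ [] → IsEmpty (H ≃* DiagramGroup R w) := by
  classical
  refine ⟨H, ⟨{t', a' ^ 2, ⁅t', a'⁆}, by simp [H]⟩, ?_⟩
  intro α R w hR _
  refine ⟨fun e => ?_⟩
  obtain ⟨ψ, hψ⟩ := exists_lift hR w 2 (chi.comp e.symm.toMonoidHom)
  let Ψ : H →* Multiplicative ℤ := ψ.comp e.toMonoidHom
  have h1 : Ψ c * Ψ c = 1 := by
    rw [← map_mul, c_sq, map_commutatorElement, commutatorElement_def]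
    rw [mul_comm (Ψ tH) (Ψ aH)]
    group
  have h2 : (Ψ c).toAdd + (Ψ c).toAdd = 0 := h1
  have h3 : (Ψ c).toAdd = 0 := by omega
  have h4 := hψ (e c)
  change (((Ψ c).toAdd : ℤ) : ZMod 2) = (chi (e.symm (e c))).toAdd at h4
  rw [h3, e.symm_apply_apply, chi_c] at h4
  revert h4
  decide

end Pool.Agent.Results.MP_24b811_al.NotDiagramGroup
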